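import Pool.Agent.W845.DH.Stm

set_option autoImplicit false
open scoped Classical
open Pool.Agent.W845.DH

namespace Pool.Agent.W54.DH

theorem vs_card {V : Type} (F : Finset (V × V)) : (vs F).card ≤ 2 * F.card := by
  unfold vs
  calc _ ≤ (F.image Prod.fst).card + (F.image Prod.snd).card := Finset.card_union_le _ _
    _ ≤ F.card + F.card := add_le_add Finset.card_image_le Finset.card_image_le
    _ = _ := by ring

theorem mem_cls {V : Type} [Fintype V] (τ : Equiv.Perm V) (v w : V) :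
    w ∈ cls τ v ↔ τ.SameCycle v w := by
  unfold cls
  rw [Finset.mem_filter]
  exact ⟨fun h => h.2, fun h => ⟨Finset.mem_univ _, h⟩⟩

theorem cnt {V W : Type} [Fintype V] [Fintype W] (ι : W → V) (B : Finset V)
    (hcov : ∀ v, v ∈ B ∨ ∃ x, ι x = v) (Q : V → Prop) :
    (Finset.univ.filter Q).card ≤
      ((Finset.univ : Finset W).filter (fun w => Q (ι w))).card + B.card := by
  have h : Finset.univ.filter Q ⊆
      (((Finset.univ : Finset W).filter (fun w => Q (ι w))).image ι) ∪ B := by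
    intro v hv
    have hv' : Q v := (Finset.mem_filter.1 hv).2
    rcases hcov v with hp | ⟨x, hx⟩
    · exact Finset.mem_union_right _ hp
    · apply Finset.mem_union_left
      refine Finset.mem_image.2 ⟨x, Finset.mem_filter.2 ⟨Finset.mem_univ _, ?_⟩, hx⟩
      rw [hx]
      exact hv'
  exact (Finset.card_le_card h).trans ((Finset.card_union_le _ _).trans
    (Nat.add_le_add_right Finset.card_image_le _))

theorem ee_sub {V W : Type} (ι : W → V) (D : V → V → Prop) (X Y : Finset W) :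
    ee D (X.image ι) (Y.image ι) ≤ ee (fun v w : W => D (ι v) (ι w)) X Y := by
  unfold ee
  have h : ((X.image ι) ×ˢ (Y.image ι)).filter (fun e => D e.1 e.2) ⊆
      ((X ×ˢ Y).filter (fun e : W × W => D (ι e.1) (ι e.2))).image
        (fun e => (ι e.1, ι e.2)) := by
    rintro ⟨x, y⟩ he
    obtain ⟨he1, he2⟩ := Finset.mem_filter.1 he
    obtain ⟨hx, hy⟩ := Finset.mem_product.1 he1
    obtain ⟨x', hx', hx''⟩ := Finset.mem_image.1 hx
    obtain ⟨y', hy', hy''⟩ := Finset.mem_image.1 hy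
    refine Finset.mem_image.2 ⟨(x', y'), Finset.mem_filter.2 ⟨Finset.mem_product.2 ⟨hx', hy'⟩, ?_⟩, ?_⟩
    · show D (ι x') (ι y')
      rw [hx'', hy'']
      exact he2
    · show (ι x', ι y') = (x, y)
      rw [hx'', hy'']
  exact (Finset.card_le_card h).trans Finset.card_image_le

theorem ncn_gen {V W : Type} [Fintype V] [Fintype W] (τ0 : Equiv.Perm V) (σ : Equiv.Perm W)
    (ι : W → V) (h : ∀ x y : W, σ.SameCycle x y → τ0.SameCycle (ι x) (ι y))
    (q : V → Prop) (hq : ∀ x y, q x → q y → τ0.SameCycle x y)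
    (hcov : ∀ v, τ0 v ≠ v → q v ∨ ∃ x, ι x = v) : ncn τ0 ≤ nc σ + 1 := by
  unfold ncn nc
  have hsub : (Finset.univ.filter (fun v => τ0 v ≠ v)).image (cls τ0) ⊆
      ((Finset.univ.image (cls σ)).image (fun S : Finset W =>
        (Finset.univ.filter (fun w => ∃ x ∈ S, τ0.SameCycle (ι x) w)))) ∪
      ((Finset.univ.filter (fun v => q v)).image (cls τ0)) := by
    intro S hS
    obtain ⟨v, hv, hvS⟩ := Finset.mem_image.1 hS
    have hv' : τ0 v ≠ v := (Finset.mem_filter.1 hv).2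
    rcases hcov v hv' with hqv | ⟨x, hx⟩
    · apply Finset.mem_union_right
      exact Finset.mem_image.2 ⟨v, Finset.mem_filter.2 ⟨Finset.mem_univ _, hqv⟩, hvS⟩
    · apply Finset.mem_union_left
      refine Finset.mem_image.2 ⟨cls σ x, Finset.mem_image.2 ⟨x, Finset.mem_univ _, rfl⟩, ?_⟩
      rw [← hvS]
      ext w
      rw [mem_cls, Finset.mem_filter]
      constructor
      · rintro ⟨_, y, hy, hyw⟩
        rw [← hx]
        exact (h _ _ ((mem_cls σ x y).1 hy)).trans hyw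
      · intro hw
        rw [← hx] at hw
        exact ⟨Finset.mem_univ _, x, (mem_cls σ x x).2 (Equiv.Perm.SameCycle.refl _ _), hw⟩
  refine (Finset.card_le_card hsub).trans ((Finset.card_union_le _ _).trans
    (add_le_add Finset.card_image_le ?_))
  rw [Finset.card_le_one]
  intro S hS T hT
  obtain ⟨v, hv, hvS⟩ := Finset.mem_image.1 hS
  obtain ⟨w, hw, hwT⟩ := Finset.mem_image.1 hT
  have hvw : τ0.SameCycle v w := hq v w (Finset.mem_filter.1 hv).2 (Finset.mem_filter.1 hw).2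
  rw [← hvS, ← hwT]
  ext x
  rw [mem_cls, mem_cls]
  exact ⟨fun hx => hvw.symm.trans hx, fun hx => hvw.trans hx⟩

section perm

variable {V : Type} (p : V → Prop) (τ : Equiv.Perm V)
  (σ : Equiv.Perm {v // p v})

theorem zp (hp : ∀ v, p v → τ v = v) (i : ℤ) (v : V) :
    ((τ * Equiv.Perm.ofSubtype σ) ^ i) v = (τ ^ i) ((Equiv.Perm.ofSubtype (σ ^ i)) v) := by
  have hd : Equiv.Perm.Disjoint τ (Equiv.Perm.ofSubtype σ) := by
    intro x
    by_cases hx : p x
    · exact Or.inl (hp x hx)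
    · exact Or.inr (Equiv.Perm.ofSubtype_apply_of_not_mem σ hx)
  rw [hd.commute.mul_zpow, Equiv.Perm.mul_apply, map_zpow]

theorem sc1 (hp : ∀ v, p v → τ v = v) (x y : V) (hx : τ x ≠ x) (h : τ.SameCycle x y) :
    (τ * Equiv.Perm.ofSubtype σ).SameCycle x y := by
  obtain ⟨i, hi⟩ := h
  refine ⟨i, ?_⟩
  have hpx : ¬ p x := fun h => hx (hp x h)
  rw [zp p τ σ hp, Equiv.Perm.ofSubtype_apply_of_not_mem (σ ^ i) hpx]
  exact hi

theorem sc2 (hp : ∀ v, p v → τ v = v) (x y : {v // p v}) (h : σ.SameCycle x y) :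
    (τ * Equiv.Perm.ofSubtype σ).SameCycle x.1 y.1 := by
  obtain ⟨i, hi⟩ := h
  refine ⟨i, ?_⟩
  have e1 : Equiv.Perm.ofSubtype (σ ^ i) x.1 = ((σ ^ i) x : {v // p v}).1 :=
    Equiv.Perm.ofSubtype_apply_of_mem (σ ^ i) x.2
  rw [zp p τ σ hp, e1, hi]
  exact Equiv.Perm.zpow_apply_eq_self_of_apply_eq_self (hp y.1 y.2) i

/-- The combination of `τ` and a permutation `σ` of the set `p` of fixed points. -/
theorem combine [Fintype V] [Fintype {v // p v}] (hp : ∀ v, p v → τ v = v)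
    (ht : ∀ x y, τ x ≠ x → τ y ≠ y → τ.SameCycle x y) :
    ∃ τ0 : Equiv.Perm V, (∀ v (h : p v), τ0 v = (σ ⟨v, h⟩).1) ∧ (∀ v, ¬ p v → τ0 v = τ v) ∧
      ncn τ0 ≤ nc σ + 1 := by
  refine ⟨τ * Equiv.Perm.ofSubtype σ, ?_, ?_, ?_⟩
  · intro v h
    rw [Equiv.Perm.mul_apply, Equiv.Perm.ofSubtype_apply_of_mem σ h]
    exact hp _ (σ ⟨v, h⟩).2
  · intro v h
    rw [Equiv.Perm.mul_apply, Equiv.Perm.ofSubtype_apply_of_not_mem σ h]
  · refine ncn_gen _ σ Subtype.val (sc2 p τ σ hp) (fun v => τ v ≠ v)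
      (fun x y hx hy => sc1 p τ σ hp x y hx (ht x y hx hy)) ?_
    intro v hv
    by_cases h : p v
    · exact Or.inr ⟨⟨v, h⟩, rfl⟩
    · left
      show τ v ≠ v
      rw [Equiv.Perm.mul_apply, Equiv.Perm.ofSubtype_apply_of_not_mem σ h] at hv
      exact hv

end perm

/-- Restriction of the digraph. -/
theorem restrict {V W : Type} [Fintype V] [Fintype W] (ι : W → V) (hι : Function.Injective ι)
    (B : Finset V) (hcov : ∀ v, v ∈ B ∨ ∃ x, ι x = v) (D : V → V → Prop)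
    (γ ζ e1 ε' : ℝ) (hγ : 0 < γ) (hγ4 : γ ≤ 1 / 4) (he1b : e1 ≤ 1 / 4) (he1a : e1 ≤ ε')
    (hζpos : 0 < ζ) (hζa : ζ ≤ e1 / 2) (hζb : ζ ≤ γ / 2)
    (hB : (B.card : ℝ) ≤ ζ * Fintype.card V)
    (hdeg : Deg ((1 / 2 - ζ) * (Fintype.card V : ℝ)) D) (hrob : Rob γ D) :
    (Fintype.card V : ℝ) ≤ 2 * Fintype.card W ∧
    Deg ((1 / 2 - ε') * (Fintype.card W : ℝ)) (fun v w : W => D (ι v) (ι w)) ∧
    Rob (γ / 2) (fun v w : W => D (ι v) (ι w)) := by
  obtain ⟨n, hn⟩ : ∃ n : ℝ, n = (Fintype.card V : ℝ) := ⟨_, rfl⟩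
  obtain ⟨n', hn'⟩ : ∃ n' : ℝ, n' = (Fintype.card W : ℝ) := ⟨_, rfl⟩
  have hnR : (0 : ℝ) ≤ n := by rw [hn]; exact Nat.cast_nonneg _
  have hnR' : (0 : ℝ) ≤ n' := by rw [hn']; exact Nat.cast_nonneg _
  have hn'le : n' ≤ n := by
    rw [hn, hn']
    exact_mod_cast Fintype.card_le_of_injective ι hι
  rw [← hn] at hB hdeg
  have hn'ge : (1 - ζ) * n ≤ n' := by
    have h5 : Fintype.card V ≤ Fintype.card W + B.card := by
      obtain ⟨P, hP⟩ : ∃ P : V → Prop, ∀ v, P v := ⟨fun _ => True, fun _ => trivial⟩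
      have h := cnt ι B hcov P
      have e1 : (Finset.univ.filter P) = Finset.univ :=
        Finset.filter_true_of_mem (fun v _ => hP v)
      have e2 : ((Finset.univ : Finset W).filter (fun w => P (ι w))) = Finset.univ :=
        Finset.filter_true_of_mem (fun w _ => hP (ι w))
      rw [e1, e2, Finset.card_univ, Finset.card_univ] at h
      exact h
    have h6 : (Fintype.card V : ℝ) ≤ (Fintype.card W : ℝ) + (B.card : ℝ) := by
      exact_mod_cast h5
    rw [← hn, ← hn'] at h6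
    linarith
  rw [← hn, ← hn']
  refine ⟨by nlinarith, ?_, ?_⟩
  · intro v
    have key : (1 / 2 - ε') * n' + ζ * n ≤ (1 / 2 - ζ) * n := by
      have h5 : (1 / 2 - ε') * n' ≤ (1 / 2 - e1) * n' :=
        mul_le_mul_of_nonneg_right (by linarith) hnR'
      have h6 : (1 / 2 - e1) * n' ≤ (1 / 2 - e1) * n :=
        mul_le_mul_of_nonneg_left hn'le (by linarith)
      nlinarith
    constructor
    · have h5 := cnt ι B hcov (fun w => D (ι v) w)
      have h6 : (od D (ι v) Finset.univ : ℝ) ≤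
          (od (fun v w : W => D (ι v) (ι w)) v Finset.univ : ℝ) + (B.card : ℝ) := by
        unfold od
        exact_mod_cast h5
      have h7 := (hdeg (ι v)).1
      linarith
    · have h5 := cnt ι B hcov (fun w => D w (ι v))
      have h6 : (idg D (ι v) Finset.univ : ℝ) ≤
          (idg (fun v w : W => D (ι v) (ι w)) v Finset.univ : ℝ) + (B.card : ℝ) := by
        unfold idg
        exact_mod_cast h5
      have h7 := (hdeg (ι v)).2
      linarith
  · intro X Y hX hY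
    rw [← hn'] at hX hY ⊢
    have h5 := ee_sub ι D X Y
    have hbig : (1 / 2 - γ) * n ≤ (1 / 2 - γ / 2) * n' := by
      have h6 : (1 / 2 - γ / 2) * ((1 - ζ) * n) ≤ (1 / 2 - γ / 2) * n' :=
        mul_le_mul_of_nonneg_left hn'ge (by linarith)
      have h7 : (1 / 2 - γ) ≤ (1 / 2 - γ / 2) * (1 - ζ) := by nlinarith
      have h8 := mul_le_mul_of_nonneg_right h7 hnR
      linarith
    have hcard : ∀ Z : Finset W, (Z.image ι).card = Z.card :=
      fun Z => Finset.card_image_of_injective Z hι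
    have h8 := hrob (X.image ι) (Y.image ι)
      (by rw [hcard, ← hn]; exact hbig.trans hX)
      (by rw [hcard, ← hn]; exact hbig.trans hY)
    rw [← hn] at h8
    have h9 : (ee D (X.image ι) (Y.image ι) : ℝ) ≤
        (ee (fun v w : W => D (ι v) (ι w)) X Y : ℝ) := by exact_mod_cast h5
    have h10 : n' ^ 2 ≤ n ^ 2 := pow_le_pow_left₀ hnR' hn'le 2
    have h11 : γ / 2 * n' ^ 2 ≤ γ * n ^ 2 := by
      have h12 : γ / 2 * n' ^ 2 ≤ γ / 2 * n ^ 2 :=
        mul_le_mul_of_nonneg_left h10 (by linarith)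
      have h13 : 0 ≤ γ / 2 * n ^ 2 := by positivity
      linarith
    linarith

/-- The absorption step on a general vertex set. -/
theorem finish (hC : S_CONN) (hA : S_ABSORB) (V : Type) [Fintype V] (D : V → V → Prop)
    (hloop : ∀ v, ¬ D v v) (C : ℕ) (τ : Equiv.Perm V) (A M : Finset (V × V))
    (t1 : ∀ v, τ v = v ∨ D v (τ v)) (t2 : ∀ x y, τ x ≠ x → τ y ≠ y → τ.SameCycle x y)
    (t3 : ∃ v, τ v ≠ v) (t4 : ∀ e ∈ A, τ e.1 = e.2 ∧ e.1 ≠ e.2) (t5 : VDs M)
    (t6 : ∀ e ∈ M, τ e.1 = e.1 ∧ τ e.2 = e.2 ∧ D e.1 e.2)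
    (t7 : ∀ u w, 2 * (C + 1) ≤ (M.filter (fun e => D u e.1 ∧ D e.2 w)).card)
    (t9 : ∀ v, 2 * M.card + 2 * (C + 1) ≤ (A.filter (fun e => D e.1 v ∧ D v e.2)).card)
    (p : V → Prop) (hpdef : ∀ v, p v ↔ τ v = v ∧ v ∉ vs M)
    (hs : ∃ σ : Equiv.Perm {v // p v}, (∀ v, D v.1 (σ v).1) ∧ nc σ ≤ C) : HamD D := by
  obtain ⟨σ, hσ1, hσ2⟩ := hs
  have hp : ∀ v, p v → τ v = v := fun v h => ((hpdef v).1 h).1
  obtain ⟨τ0, a1, a2, a0⟩ := combine p τ σ hp t2
  have a3 : ∀ v, τ0 v = v ∨ D v (τ0 v) := by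
    intro v
    by_cases h : p v
    · right
      rw [a1 v h]
      exact hσ1 ⟨v, h⟩
    · rw [a2 v h]
      exact t1 v
  have a4 : ncn τ0 ≤ C + 1 := a0.trans (Nat.add_le_add_right hσ2 1)
  have a5 : ∀ e ∈ M, τ0 e.1 = e.1 ∧ τ0 e.2 = e.2 ∧ D e.1 e.2 := by
    intro e he
    obtain ⟨b1, b2, b3⟩ := t6 e he
    have c1 : ¬ p e.1 := fun h => ((hpdef _).1 h).2 (by
      unfold vs
      exact Finset.mem_union_left _ (Finset.mem_image.2 ⟨e, he, rfl⟩))
    have c2 : ¬ p e.2 := fun h => ((hpdef _).1 h).2 (by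
      unfold vs
      exact Finset.mem_union_right _ (Finset.mem_image.2 ⟨e, he, rfl⟩))
    rw [a2 _ c1, a2 _ c2]
    exact ⟨b1, b2, b3⟩
  obtain ⟨τ', b1, b2, b3, b4⟩ := hC V D (C + 1) τ0 M a3 a4 t5 a5 t7
  refine hA V D τ' (A.filter (fun e => τ' e.1 = e.2)) b1 ?_ b2 ?_ ?_
  · obtain ⟨v, hv⟩ := t3
    refine ⟨v, b3 v ?_⟩
    rw [a2 v (fun h => hv (hp v h))]
    exact hv
  · intro e he
    obtain ⟨h5, h6⟩ := Finset.mem_filter.1 he
    exact ⟨h6, (t4 e h5).2⟩
  · intro v _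
    -- the fixed points of `τ'` lie in `vs M`
    have hfix : (Finset.univ.filter (fun v => τ' v = v)).card ≤ 2 * M.card := by
      refine (Finset.card_le_card ?_).trans (vs_card M)
      intro w hw
      have hw' : τ' w = w := (Finset.mem_filter.1 hw).2
      have h5 : τ0 w = w := by
        by_contra h
        exact b3 w h hw'
      by_contra h6
      by_cases h7 : p w
      · rw [a1 w h7] at h5
        have h8 : D w (σ ⟨w, h7⟩).1 := hσ1 ⟨w, h7⟩
        rw [h5] at h8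
        exact hloop w h8
      · rw [a2 w h7] at h5
        exact h7 ((hpdef w).2 ⟨h5, h6⟩)
    have hbad : (A.filter (fun e => τ' e.1 ≠ e.2)).card ≤ 2 * (C + 1) := by
      refine le_trans ?_ b4
      refine Finset.card_le_card_of_injOn (fun e => e.1) ?_ ?_
      · intro e he
        obtain ⟨h5, h6⟩ := Finset.mem_filter.1 he
        obtain ⟨h7, h8⟩ := t4 e h5
        have h9 : τ e.1 ≠ e.1 := by
          rw [h7]
          exact fun h => h8 h.symm
        have h10 : τ0 e.1 = e.2 := by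
          rw [a2 e.1 (fun h => h9 (hp _ h)), h7]
        refine Finset.mem_filter.2 ⟨Finset.mem_univ _, ?_, ?_⟩
        · show τ0 e.1 ≠ e.1
          rw [h10]
          exact fun h => h8 h.symm
        · show τ' e.1 ≠ τ0 e.1
          rw [h10]
          exact h6
      · intro e he f hf hef
        have he' := (Finset.mem_filter.1 he).1
        have hf' := (Finset.mem_filter.1 hf).1
        have h5 := (t4 e he').1
        have h6 := (t4 f hf').1
        have hef' : e.1 = f.1 := hef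
        rw [hef'] at h5
        exact Prod.ext hef' (h5.symm.trans h6)
    have hsplit : (A.filter (fun e => D e.1 v ∧ D v e.2)).card ≤
        ((A.filter (fun e => τ' e.1 = e.2)).filter (fun e => D e.1 v ∧ D v e.2)).card +
          (A.filter (fun e => τ' e.1 ≠ e.2)).card := by
      refine le_trans (Finset.card_le_card ?_) (Finset.card_union_le _ _)
      intro e he
      obtain ⟨h5, h6⟩ := Finset.mem_filter.1 he
      rw [Finset.mem_union]
      by_cases h7 : τ' e.1 = e.2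
      · left
        exact Finset.mem_filter.2 ⟨Finset.mem_filter.2 ⟨h5, h7⟩, h6⟩
      · right
        exact Finset.mem_filter.2 ⟨h5, h7⟩
    have h9 := t9 v
    omega

theorem ne (hF : S_FEW) (h1 : S_NE1) (hC : S_CONN) (hA : S_ABSORB) : S_NE := by
  intro γ hγ hγ4
  obtain ⟨ε', C, N', hε', hF⟩ := hF (γ / 2) (by linarith) (by linarith)
  obtain ⟨e1, he1pos, he1a, he1b⟩ : ∃ e1 : ℝ, 0 < e1 ∧ e1 ≤ ε' ∧ e1 ≤ 1 / 4 :=
    ⟨min ε' (1 / 4), lt_min hε' (by norm_num), min_le_left _ _, min_le_right _ _⟩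
  obtain ⟨ζ, hζpos, hζa, hζb⟩ : ∃ ζ : ℝ, 0 < ζ ∧ ζ ≤ e1 / 2 ∧ ζ ≤ γ / 2 :=
    ⟨min (e1 / 2) (γ / 2), lt_min (by linarith) (by linarith), min_le_left _ _, min_le_right _ _⟩
  obtain ⟨a, N1, ha, h1⟩ := h1 γ ζ hγ hγ4 hζpos
  obtain ⟨N2, hN2⟩ := exists_nat_ge ((2 * ((C : ℝ) + 1)) / a)
  refine ⟨ζ, max N1 (max (2 * N') N2), hζpos, ?_⟩
  intro n D hn hloop hdeg hrob
  have hn1 : N1 ≤ n := (le_max_left _ _).trans hn
  have hn2 : 2 * N' ≤ n := ((le_max_left _ _).trans (le_max_right _ _)).trans hn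
  have hn3 : N2 ≤ n := ((le_max_right _ _).trans (le_max_right _ _)).trans hn
  have hnR : (0 : ℝ) ≤ n := Nat.cast_nonneg n
  have h2r : (2 * ((C : ℝ) + 1)) ≤ a * n := by
    have h3 : (N2 : ℝ) ≤ n := by exact_mod_cast hn3
    have h4 : (2 * ((C : ℝ) + 1)) / a ≤ (n : ℝ) := hN2.trans h3
    rw [div_le_iff₀ ha] at h4
    linarith
  obtain ⟨τ, A, M, t1, t2, t3, t4, t5, t6, t7, t8, t9⟩ := h1 n D hn1 hloop (by
    intro v
    have h5 : (1 / 2 - γ / 2) * (n : ℝ) ≤ (1 / 2 - ζ) * n :=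
      mul_le_mul_of_nonneg_right (by linarith) hnR
    exact ⟨h5.trans (hdeg v).1, h5.trans (hdeg v).2⟩) hrob
  obtain ⟨p, hpdef⟩ : ∃ p : Fin n → Prop, ∀ v, p v ↔ τ v = v ∧ v ∉ vs M :=
    ⟨fun v => τ v = v ∧ v ∉ vs M, fun v => Iff.rfl⟩
  obtain ⟨B, hBdef⟩ : ∃ B : Finset (Fin n), ∀ v, v ∈ B ↔ ¬ p v :=
    ⟨Finset.univ.filter (fun v => ¬ p v), fun v =>
      ⟨fun h => (Finset.mem_filter.1 h).2, fun h => Finset.mem_filter.2 ⟨Finset.mem_univ _, h⟩⟩⟩
  -- the complement of `p`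
  have hB : (B.card : ℝ) ≤ ζ * (Fintype.card (Fin n) : ℝ) := by
    have hs : B ⊆ Finset.univ.filter (fun v => τ v ≠ v) ∪ vs M := by
      intro v hv
      have hv' : ¬ (τ v = v ∧ v ∉ vs M) := fun h => (hBdef v).1 hv ((hpdef v).2 h)
      rw [Finset.mem_union]
      by_cases h : τ v = v
      · right
        by_contra h'
        exact hv' ⟨h, h'⟩
      · left
        exact Finset.mem_filter.2 ⟨Finset.mem_univ _, h⟩
    have h5 : B.card ≤ (Finset.univ.filter (fun v => τ v ≠ v)).card + 2 * M.card :=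
      (Finset.card_le_card hs).trans ((Finset.card_union_le _ _).trans
        (Nat.add_le_add_left (vs_card M) _))
    have h6 : (B.card : ℝ) ≤
        ((Finset.univ.filter (fun v => τ v ≠ v)).card : ℝ) + 2 * M.card := by
      exact_mod_cast h5
    rw [Fintype.card_fin]
    exact h6.trans t8
  obtain ⟨c1, c2, c3⟩ := restrict (Subtype.val : {v // p v} → Fin n) Subtype.val_injective B
    (fun v => by
      by_cases h : p v
      · exact Or.inr ⟨⟨v, h⟩, rfl⟩
      · exact Or.inl ((hBdef v).2 h)) D γ ζ e1 ε' hγ hγ4 he1b he1a hζpos hζa hζb hB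
    (by rw [Fintype.card_fin]; exact hdeg) hrob
  rw [Fintype.card_fin] at c1
  have c4 : N' ≤ Fintype.card {v // p v} := by
    have h5 : (2 * N' : ℝ) ≤ n := by exact_mod_cast hn2
    have h6 : (N' : ℝ) ≤ (Fintype.card {v // p v} : ℝ) := by linarith
    exact_mod_cast h6
  refine finish hC hA (Fin n) D hloop C τ A M t1 t2 t3 t4 t5 t6 ?_ ?_ p hpdef
    (hF {v // p v} _ c4 c2 c3)
  · intro u w
    have h5 := h2r.trans (t7 u w)
    exact_mod_cast h5
  · intro v
    have h5 := t9 v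
    have h11 : 2 * (M.card : ℝ) + 2 * ((C : ℝ) + 1) ≤
        ((A.filter (fun e => D e.1 v ∧ D v e.2)).card : ℝ) := by linarith
    exact_mod_cast h11

end Pool.Agent.W54.DH
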